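import Pool.Agent.Helper62.GR.Goals

/-!
# Project GR (MP_08df5f_al): the packet TR (the binary tree)
-/

set_option autoImplicit false

namespace Pool.Agent.Helper35.GR

open Equiv Pool.Agent.Helper62.GR Pool.Agent.Helper62.WB

/-- the first `n` letters -/
def pre (n : ℕ) (x : X) : Fin n → Bool := fun i => x i

/-- extension of a word by `true` -/
def extw {n : ℕ} (v : Fin n → Bool) : X := fun i => if h : i < n then v ⟨i, h⟩ else true

theorem pre_extw {n : ℕ} (v : Fin n → Bool) : pre n (extw v) = v := by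
  funext i
  simp only [pre, extw]
  rw [dif_pos i.2]

theorem agr_iff {n : ℕ} {x y : X} : Agr n x y ↔ pre n x = pre n y := by
  constructor
  · intro h
    funext i
    exact h i i.2
  · intro h i hi
    exact congrFun h ⟨i, hi⟩

/-- the binary tree -/
def BT : RTree where
  L n := Fin n → Bool
  fin n := inferInstance
  root := ⟨fun i => i.elim0, fun w => funext fun i => i.elim0⟩
  par n v := fun i => v i.castSucc
  par_surj n v := ⟨Fin.snoc v false, by
    funext i
    simp⟩

theorem par_pre (n : ℕ) (x : X) : BT.par n (pre (n + 1) x) = pre n x := rfl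

theorem anc_pre (n k : ℕ) (x : X) : BT.anc n k (pre (n + k) x) = pre n x := by
  induction k with
  | zero => rfl
  | succ k ih => exact ih

/-- the action on the words -/
def actF (n : ℕ) (g : Perm X) (v : Fin n → Bool) : Fin n → Bool := pre n (g (extw v))

theorem actF_pre (h1 : G_SE) (n : ℕ) {g : Perm X} (hg : g ∈ GG) (x : X) :
    actF n g (pre n x) = pre n (g x) := by
  rw [actF, ← agr_iff, h1.1 g hg, agr_iff, pre_extw]

/-- the action -/
def actT (h1 : G_SE) (n : ℕ) : GG →* Perm (BT.L n) where
  toFun g :=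
    { toFun := actF n g.1
      invFun := actF n (g⁻¹).1
      left_inv := fun v => by
        change actF n (g⁻¹).1 (pre n (g.1 (extw v))) = v
        rw [actF_pre h1 n (g⁻¹).2]
        change pre n (g.1⁻¹ (g.1 (extw v))) = v
        rw [← Perm.mul_apply, inv_mul_cancel, Perm.one_apply, pre_extw]
      right_inv := fun v => by
        change actF n g.1 (pre n ((g⁻¹).1 (extw v))) = v
        rw [actF_pre h1 n g.2]
        change pre n (g.1 (g.1⁻¹ (extw v))) = v
        rw [← Perm.mul_apply, mul_inv_cancel, Perm.one_apply, pre_extw] }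
  map_one' := by
    ext1 v
    exact pre_extw v
  map_mul' g h := by
    ext1 v
    change pre n (g.1 (h.1 (extw v))) = actF n g.1 (pre n (h.1 (extw v)))
    rw [actF_pre h1 n g.2]

theorem actT_pre (h1 : G_SE) (n : ℕ) (g : GG) (x : X) :
    actT h1 n g (pre n x) = pre n (g.1 x) := actF_pre h1 n g.2 x

/-- the action on the tree -/
def aT (h1 : G_SE) : TAct BT GG where
  act n := actT h1 n
  par_act n g v := by
    obtain ⟨x, rfl⟩ : ∃ x, v = pre (n + 1) x := ⟨extw v, (pre_extw v).symm⟩
    rw [actT_pre, par_pre, par_pre, actT_pre]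

theorem bd_apply (b : BT.Bd) (i : ℕ) : ∀ k, b.1 (i + 1 + k) ⟨i, by omega⟩ =
    b.1 (i + 1) ⟨i, by omega⟩ := by
  intro k
  induction k with
  | zero => rfl
  | succ k ih =>
    rw [← ih]
    have h := congrFun (b.2 (i + 1 + k)) ⟨i, by omega⟩
    exact h

/-- the boundary -/
def eT : X ≃ BT.Bd where
  toFun x := ⟨fun n => pre n x, fun n => rfl⟩
  invFun b := fun n => b.1 (n + 1) (Fin.last n)
  left_inv x := rfl
  right_inv b := by
    apply Subtype.ext
    funext n
    funext i
    change b.1 ((i : ℕ) + 1) (Fin.last i) = b.1 n i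
    obtain ⟨k, hk⟩ : ∃ k, n = (i : ℕ) + 1 + k := ⟨n - ((i : ℕ) + 1), by
      have := i.2
      omega⟩
    have h := bd_apply b i k
    have e : ∀ (n' : ℕ) (h' : n = n'), b.1 n i = b.1 n' ⟨i, h' ▸ i.2⟩ := by
      rintro n' rfl
      rfl
    rw [e _ hk, h]
    rfl

theorem tr (h1 : G_SE) (h2 : G_LT) (h3 : G_RI) : G_TR := by
  refine ⟨BT, aT h1, eT, ⟨?_, ?_, ?_⟩, ?_, ?_⟩
  · intro g hg
    apply Subtype.ext
    ext1 x
    apply eq_of_Agr
    intro n
    rw [agr_iff]
    have h := congrArg (fun f : Perm (BT.L n) => f (pre n x)) (hg n)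
    change actT h1 n g (pre n x) = pre n x at h
    rw [actT_pre] at h
    exact h
  · intro n v w
    obtain ⟨g, hg, h⟩ := h2.1 n (extw v) (extw w)
    refine ⟨⟨g, hg⟩, ?_⟩
    change actT h1 n ⟨g, hg⟩ v = w
    have e := actT_pre h1 n ⟨g, hg⟩ (extw v)
    rw [pre_extw] at e
    rw [e, agr_iff.mp h, pre_extw]
  · intro n v
    obtain ⟨g, hg, h4, h5⟩ := h3 n (extw v)
    refine ⟨⟨g, hg⟩, ?_, ?_⟩
    · intro k w hw
      change actT h1 (n + k) ⟨g, hg⟩ w = w
      have e := actT_pre h1 (n + k) ⟨g, hg⟩ (extw w)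
      have e2 : pre (n + k) (extw w) = w := pre_extw w
      rw [e2] at e
      rw [e]
      have e3 : g (extw w) = extw w := by
        apply h5
        intro h6
        apply hw
        rw [agr_iff, pre_extw, ← anc_pre n k, e2] at h6
        exact h6.symm
      change pre (n + k) (g (extw w)) = w
      rw [e3, e2]
    · intro h6
      exact h4 (congrArg Subtype.val h6)
  · intro g x
    apply Subtype.ext
    funext n
    exact (actT_pre h1 n g x).symm
  · intro n x y
    exact agr_iff.symm

end Pool.Agent.Helper35.GR
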